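import Pool.Agent.helper39.MT.Defs
import Pool.Agent.Lib.PrimeSums

/-!
# AN9, elementary lemmas
-/

namespace Pool.Agent.helper39.MT.AN9

open Finset

/-- `φ(g r) ≤ g φ(r)`. -/
lemma totient_mul_le (g r : ℕ) : Nat.totient (g * r) ≤ g * Nat.totient r := by
  induction g using induction_on_primes with
  | zero => simp
  | one => simp
  | prime_mul p a hp ih =>
    rw [mul_assoc]
    have h : Nat.totient (p * (a * r)) ≤ p * Nat.totient (a * r) := by
      by_cases hd : p ∣ a * r
      · rw [Nat.totient_mul_of_prime_of_dvd hp hd]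
      · rw [Nat.totient_mul_of_prime_of_not_dvd hp hd]
        exact Nat.mul_le_mul_right _ (Nat.sub_le _ _)
    calc Nat.totient (p * (a * r)) ≤ p * Nat.totient (a * r) := h
      _ ≤ p * (a * Nat.totient r) := Nat.mul_le_mul_left _ ih
      _ = p * a * Nat.totient r := by ring

/-- The multiplicative function `H^ω/φ` on squarefree numbers. -/
noncomputable def gg (H D : ℕ) : ℝ := (H : ℝ) ^ D.primeFactors.card / (Nat.totient D : ℝ)

lemma gg_nonneg (H D : ℕ) : 0 ≤ gg H D := by unfold gg; positivity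

lemma gg_eq_prod (H D : ℕ) (hD : Squarefree D) :
    gg H D = ∏ p ∈ D.primeFactors, ((H : ℝ) / ((p : ℝ) - 1)) := by
  unfold gg
  have h0 : D ≠ 0 := hD.ne_zero
  have h1 : (Nat.totient D : ℝ) = ∏ p ∈ D.primeFactors, ((p : ℝ) - 1) := by
    have h2 := Nat.totient_mul_prod_primeFactors D
    rw [Nat.prod_primeFactors_of_squarefree hD] at h2
    have h3 : Nat.totient D = ∏ p ∈ D.primeFactors, (p - 1) := by
      have : 0 < D := Nat.pos_of_ne_zero h0
      have h4 : Nat.totient D * D = (∏ p ∈ D.primeFactors, (p - 1)) * D := by rw [h2]; ring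
      exact Nat.eq_of_mul_eq_mul_right this h4
    rw [h3, Nat.cast_prod]
    refine prod_congr rfl fun p hp => ?_
    have := (Nat.prime_of_mem_primeFactors hp).one_lt
    push_cast [Nat.cast_sub this.le]
    ring
  rw [h1, prod_div_distrib, prod_const]

/-- `∑_{D ≤ Q squarefree} H^ω(D)/φ(D) ≤ C L^H` for `Q ≤ e^L`. -/
lemma sum_gg_le (H : ℕ) : ∃ C : ℝ, 1 ≤ C ∧ ∀ L : ℝ, 1 ≤ L → ∀ Q : ℕ, (Q : ℝ) ≤ Real.exp L →
    ∑ D ∈ Icc 1 Q with Squarefree D, gg H D ≤ C * L ^ H := by
  refine ⟨Real.exp (H * 6), Real.one_le_exp (by positivity), fun L hL Q hQ => ?_⟩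
  have hLH : 1 ≤ L ^ H := one_le_pow₀ hL
  rcases Nat.lt_or_ge Q 2 with hQ2 | hQ2
  · have hsub : (Icc 1 Q).filter Squarefree ⊆ {1} := by
      intro D hD
      simp only [mem_filter, mem_Icc] at hD
      simp only [mem_singleton]
      omega
    calc ∑ D ∈ Icc 1 Q with Squarefree D, gg H D ≤ ∑ D ∈ {1}, gg H D :=
          sum_le_sum_of_subset_of_nonneg hsub fun D _ _ => gg_nonneg H D
      _ = 1 := by simp [gg]
      _ ≤ Real.exp (H * 6) * L ^ H := one_le_mul_of_one_le_of_one_le
          (Real.one_le_exp (by positivity)) hLH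
  -- the product over primes
  have h1 : ∑ D ∈ Icc 1 Q with Squarefree D, gg H D ≤
      ∏ p ∈ Nat.primesLE Q, (1 + (H : ℝ) / ((p : ℝ) - 1)) := by
    rw [prod_one_add]
    calc ∑ D ∈ Icc 1 Q with Squarefree D, gg H D
        = ∑ D ∈ Icc 1 Q with Squarefree D, ∏ p ∈ D.primeFactors, ((H : ℝ) / ((p : ℝ) - 1)) := by
          refine sum_congr rfl fun D hD => gg_eq_prod H D (mem_filter.mp hD).2
      _ = ∑ S ∈ ((Icc 1 Q).filter Squarefree).image Nat.primeFactors,
            ∏ p ∈ S, ((H : ℝ) / ((p : ℝ) - 1)) := by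
          rw [sum_image]
          intro D hD D' hD' h
          have e1 := Nat.prod_primeFactors_of_squarefree (mem_filter.mp hD).2
          have e2 := Nat.prod_primeFactors_of_squarefree (mem_filter.mp hD').2
          have h' : D.primeFactors = D'.primeFactors := h
          rw [← e1, ← e2, h']
      _ ≤ ∑ S ∈ (Nat.primesLE Q).powerset, ∏ p ∈ S, ((H : ℝ) / ((p : ℝ) - 1)) := by
          refine sum_le_sum_of_subset_of_nonneg ?_ ?_
          · intro S hS
            obtain ⟨D, hD, rfl⟩ := mem_image.mp hS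
            rw [mem_powerset]
            intro p hp
            rw [Nat.mem_primesLE]
            have hD' := mem_Icc.mp (mem_filter.mp hD).1
            exact ⟨(Nat.le_of_dvd (by omega) (Nat.dvd_of_mem_primeFactors hp)).trans hD'.2,
              Nat.prime_of_mem_primeFactors hp⟩
          · intro S hS _
            refine prod_nonneg fun p hp => ?_
            have := (Nat.mem_primesLE.mp (mem_powerset.mp hS hp)).2.one_lt
            have : (1 : ℝ) < p := by exact_mod_cast this
            exact div_nonneg (by positivity) (by linarith)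
  have h2 : ∏ p ∈ Nat.primesLE Q, (1 + (H : ℝ) / ((p : ℝ) - 1)) ≤
      Real.exp (∑ p ∈ Nat.primesLE Q, (H : ℝ) / ((p : ℝ) - 1)) := by
    rw [Real.exp_sum]
    refine prod_le_prod (fun p hp => ?_) fun p hp => ?_
    · have := (Nat.mem_primesLE.mp hp).2.one_lt
      have : (1 : ℝ) < p := by exact_mod_cast this
      have : 0 ≤ (H : ℝ) / ((p : ℝ) - 1) := div_nonneg (by positivity) (by linarith)
      linarith
    · rw [add_comm]; exact Real.add_one_le_exp _
  have h3 : ∑ p ∈ Nat.primesLE Q, 1 / ((p : ℝ) - 1) ≤ Real.log (Real.log Q) + 6 := by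
    have e1 := Pool.Agent.Lib.PrimeSums.sum_inv_le Q hQ2
    have e2 : ∑ p ∈ Nat.primesLE Q, (1 / ((p : ℝ) - 1) - 1 / (p : ℝ)) ≤ 1 := by
      calc ∑ p ∈ Nat.primesLE Q, (1 / ((p : ℝ) - 1) - 1 / (p : ℝ))
          ≤ ∑ p ∈ Icc 2 Q, (1 / ((p : ℝ) - 1) - 1 / (p : ℝ)) := by
            refine sum_le_sum_of_subset_of_nonneg ?_ ?_
            · intro p hp
              have := Nat.mem_primesLE.mp hp
              exact mem_Icc.mpr ⟨this.2.two_le, this.1⟩
            · intro p hp _
              have h2 : (2 : ℝ) ≤ p := by exact_mod_cast (mem_Icc.mp hp).1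
              have : 1 / (p : ℝ) ≤ 1 / ((p : ℝ) - 1) :=
                one_div_le_one_div_of_le (by linarith) (by linarith)
              linarith
        _ ≤ 1 := by
            have : ∀ n : ℕ, 1 ≤ n → ∑ p ∈ Icc 2 n, (1 / ((p : ℝ) - 1) - 1 / (p : ℝ)) =
                1 - 1 / (n : ℝ) := by
              intro n hn
              induction n, hn using Nat.le_induction with
              | base => simp
              | succ n hn ih =>
                rw [Finset.sum_Icc_succ_top (by omega), ih]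
                push_cast
                ring
            rw [this Q (by omega)]
            have : 0 ≤ 1 / (Q : ℝ) := by positivity
            linarith
    rw [sum_sub_distrib] at e2
    linarith
  have hlogQ : 0 < Real.log Q := Real.log_pos (by exact_mod_cast (by omega : 1 < Q))
  have hlogQL : Real.log Q ≤ L := by
    rw [Real.log_le_iff_le_exp (by exact_mod_cast (by omega : 0 < Q))]
    exact hQ
  calc ∑ D ∈ Icc 1 Q with Squarefree D, gg H D
      ≤ Real.exp (∑ p ∈ Nat.primesLE Q, (H : ℝ) / ((p : ℝ) - 1)) := h1.trans h2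
    _ = Real.exp (H * ∑ p ∈ Nat.primesLE Q, 1 / ((p : ℝ) - 1)) := by
        rw [mul_sum]; congr 1; refine sum_congr rfl fun p _ => by ring
    _ ≤ Real.exp (H * (Real.log (Real.log Q) + 6)) :=
        Real.exp_le_exp.mpr (mul_le_mul_of_nonneg_left h3 (by positivity))
    _ = Real.exp (H * 6) * Real.log Q ^ H := by
        rw [mul_add, Real.exp_add, mul_comm]
        congr 1
        rw [← Real.log_pow, Real.exp_log (by positivity)]
    _ ≤ Real.exp (H * 6) * L ^ H := by gcongr

/-- The sum over the moduli `A D` divisible by `r`. -/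
lemma inner_le (A H r Q : ℕ) (hA : 0 < A) (hH : 1 ≤ H) (hr : 0 < r) :
    ∑ D ∈ (Icc 1 Q).filter (fun D => Squarefree D ∧ Nat.Coprime D A),
      (if r ∣ A * D then (H : ℝ) ^ D.primeFactors.card / (Nat.totient (A * D) : ℝ) else 0) ≤
    A * gg H r * ∑ D ∈ Icc 1 Q with Squarefree D, gg H D := by
  set r₂ := r / r.gcd A with hr₂
  have hg0 : 0 < r.gcd A := Nat.gcd_pos_of_pos_left A hr
  have hrr : r.gcd A * r₂ = r := Nat.mul_div_cancel' (Nat.gcd_dvd_left r A)
  have hr₂0 : 0 < r₂ := Nat.pos_of_ne_zero (by rintro h; rw [h] at hrr; omega)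
  have hgA : r.gcd A ≤ A := Nat.le_of_dvd hA (Nat.gcd_dvd_right r A)
  have hH1 : (1 : ℝ) ≤ H := by exact_mod_cast hH
  rw [← sum_filter, filter_filter]
  set S := (Icc 1 Q).filter (fun D => (Squarefree D ∧ Nat.Coprime D A) ∧ r ∣ A * D) with hS
  have hdvd : ∀ D ∈ S, r₂ ∣ D := by
    intro D hD
    have hD' := (mem_filter.mp hD).2.2
    have hcop : Nat.Coprime r₂ (A / r.gcd A) := Nat.coprime_div_gcd_div_gcd hg0
    refine hcop.dvd_of_dvd_mul_left ?_
    have h1 : r.gcd A * r₂ ∣ r.gcd A * (A / r.gcd A * D) := by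
      rw [hrr, ← mul_assoc, Nat.mul_div_cancel' (Nat.gcd_dvd_right r A)]
      exact hD'
    exact Nat.dvd_of_mul_dvd_mul_left hg0 h1
  -- pointwise bound
  have hpt : ∀ D ∈ S, (H : ℝ) ^ D.primeFactors.card / (Nat.totient (A * D) : ℝ) ≤
      A * gg H r * gg H (D / r₂) := by
    intro D hD
    obtain ⟨⟨hsq, hcopA⟩, -⟩ := (mem_filter.mp hD).2
    obtain ⟨D', hD'⟩ := hdvd D hD
    have hDr : D / r₂ = D' := by rw [hD']; exact Nat.mul_div_cancel_left _ hr₂0
    rw [hDr]
    have hcop : Nat.Coprime r₂ D' := by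
      rw [hD', Nat.squarefree_mul_iff] at hsq
      exact hsq.1
    have hD'0 : 0 < D' := Nat.pos_of_ne_zero (by
      rintro h
      rw [h, mul_zero] at hD'
      exact hsq.ne_zero hD')
    have hω : D.primeFactors.card = r₂.primeFactors.card + D'.primeFactors.card := by
      rw [hD', hcop.primeFactors_mul, card_union_of_disjoint hcop.disjoint_primeFactors]
    have hφ : Nat.totient (A * D) = Nat.totient A * (Nat.totient r₂ * Nat.totient D') := by
      rw [Nat.totient_mul hcopA.symm, hD', Nat.totient_mul hcop]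
    have hφA : (1 : ℝ) ≤ Nat.totient A := by exact_mod_cast Nat.totient_pos.mpr hA
    have hφr : (0 : ℝ) < Nat.totient r := by exact_mod_cast Nat.totient_pos.mpr hr
    have hφr₂ : (0 : ℝ) < Nat.totient r₂ := by exact_mod_cast Nat.totient_pos.mpr hr₂0
    have hφD' : (0 : ℝ) < Nat.totient D' := by exact_mod_cast Nat.totient_pos.mpr hD'0
    have hωr : (H : ℝ) ^ r₂.primeFactors.card ≤ (H : ℝ) ^ r.primeFactors.card :=
      pow_le_pow_right₀ hH1 (card_le_card (Nat.primeFactors_mono ⟨r.gcd A, by rw [mul_comm]; exact hrr.symm⟩ hr.ne'))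
    have hφr' : (Nat.totient r : ℝ) ≤ A * Nat.totient r₂ := by
      have : Nat.totient r ≤ A * Nat.totient r₂ := by
        calc Nat.totient r = Nat.totient (r.gcd A * r₂) := by rw [hrr]
          _ ≤ r.gcd A * Nat.totient r₂ := totient_mul_le _ _
          _ ≤ A * Nat.totient r₂ := Nat.mul_le_mul_right _ hgA
      exact_mod_cast this
    rw [hω, hφ]
    unfold gg
    push_cast
    rw [pow_add]
    calc (H : ℝ) ^ r₂.primeFactors.card * (H : ℝ) ^ D'.primeFactors.card /
          ((Nat.totient A : ℝ) * ((Nat.totient r₂ : ℝ) * (Nat.totient D' : ℝ)))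
        ≤ (H : ℝ) ^ r.primeFactors.card * (H : ℝ) ^ D'.primeFactors.card /
          (1 * ((Nat.totient r₂ : ℝ) * (Nat.totient D' : ℝ))) := by gcongr
      _ = (H : ℝ) ^ r.primeFactors.card * (1 / (Nat.totient r₂ : ℝ)) *
          ((H : ℝ) ^ D'.primeFactors.card / (Nat.totient D' : ℝ)) := by field_simp
      _ ≤ (H : ℝ) ^ r.primeFactors.card * (A / (Nat.totient r : ℝ)) *
          ((H : ℝ) ^ D'.primeFactors.card / (Nat.totient D' : ℝ)) := by
          have : 1 / (Nat.totient r₂ : ℝ) ≤ A / (Nat.totient r : ℝ) := by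
            rw [div_le_div_iff₀ hφr₂ hφr]
            linarith
          gcongr
      _ = _ := by ring
  calc ∑ D ∈ S, (H : ℝ) ^ D.primeFactors.card / (Nat.totient (A * D) : ℝ)
      ≤ ∑ D ∈ S, A * gg H r * gg H (D / r₂) := sum_le_sum hpt
    _ = A * gg H r * ∑ D ∈ S, gg H (D / r₂) := by rw [mul_sum]
    _ = A * gg H r * ∑ D ∈ S.image (fun D => D / r₂), gg H D := by
        rw [sum_image]
        intro D hD D' hD' h
        have h' : D / r₂ = D' / r₂ := h
        rw [← Nat.mul_div_cancel' (hdvd D hD), ← Nat.mul_div_cancel' (hdvd D' hD'), h']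
    _ ≤ A * gg H r * ∑ D ∈ Icc 1 Q with Squarefree D, gg H D := by
        refine mul_le_mul_of_nonneg_left ?_ (mul_nonneg (by positivity) (gg_nonneg _ _))
        refine sum_le_sum_of_subset_of_nonneg ?_ fun D _ _ => gg_nonneg H D
        intro D' hD'
        obtain ⟨D, hD, rfl⟩ := mem_image.mp hD'
        have h1 := mem_filter.mp hD
        have h2 := mem_Icc.mp h1.1
        have h3 := hdvd D hD
        rw [mem_filter, mem_Icc]
        refine ⟨⟨Nat.div_pos (Nat.le_of_dvd (by omega) h3) hr₂0, (Nat.div_le_self _ _).trans h2.2⟩,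
          h1.2.1.1.squarefree_of_dvd (Nat.div_dvd_of_dvd h3)⟩

end Pool.Agent.helper39.MT.AN9
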