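import Pool.Agent.helper39.MT.Defs

/-!
# AN5: positivity of `ζ(σ) L(σ,χ₁) L(σ,χ₂) L(σ,χ₁χ₂)` and repulsion of real characters
-/

namespace Pool.Agent.helper39.MT

open Finset Real ArithmeticFunction

namespace AN5

lemma DD_zero {q : ℕ} (χ : DirichletCharacter ℂ q) (s : ℂ) :
    DD χ 0 s = LSeries (fun n => χ n) s := by
  simp [DD]

lemma real_vals {q : ℕ} (χ : DirichletCharacter ℂ q) (hχ : χ ^ 2 = 1) (n : ZMod q) :
    χ n = 0 ∨ χ n = 1 ∨ χ n = -1 := by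
  by_cases hn : IsUnit n
  · right
    have h1 : (χ ^ 2) n = 1 := by rw [hχ, MulChar.one_apply hn]
    rw [χ.pow_apply' two_ne_zero] at h1
    have h2 : (χ n - 1) * (χ n + 1) = 0 := by linear_combination h1
    rcases mul_eq_zero.mp h2 with h | h
    · left; linear_combination h
    · right; linear_combination h
  · left
    exact MulChar.map_nonunit _ hn

lemma local_real (α t : ℝ) (h0 : 0 < t) (h1 : t < 1) (hα : |α| ≤ 1) :
    (-Complex.log (1 - (α : ℂ) * (t : ℂ))).re = -Real.log (1 - α * t) := by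
  rw [Complex.neg_re, Complex.log_re]
  have h2 : (1 - (α : ℂ) * (t : ℂ)) = ((1 - α * t : ℝ) : ℂ) := by push_cast; ring
  have h3 : α * t < 1 := by
    have := abs_le.mp hα
    nlinarith [this.1, this.2]
  rw [h2, Complex.norm_real, Real.norm_of_nonneg (by linarith)]

lemma local_ineq (a b : ℂ) (t : ℝ) (h0 : 0 < t) (h1 : t < 1)
    (ha : a = 0 ∨ a = 1 ∨ a = -1) (hb : b = 0 ∨ b = 1 ∨ b = -1) :
    0 ≤ (-Complex.log (1 - (t : ℂ))).re + (-Complex.log (1 - a * (t : ℂ))).re +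
      (-Complex.log (1 - b * (t : ℂ))).re + (-Complex.log (1 - (a * b) * (t : ℂ))).re := by
  obtain ⟨α, hα, hα'⟩ : ∃ α : ℝ, a = (α : ℂ) ∧ (α = 0 ∨ α = 1 ∨ α = -1) := by
    rcases ha with h | h | h
    · exact ⟨0, by simp [h], by simp⟩
    · exact ⟨1, by simp [h], by simp⟩
    · exact ⟨-1, by simp [h], by simp⟩
  obtain ⟨β, hβ, hβ'⟩ : ∃ β : ℝ, b = (β : ℂ) ∧ (β = 0 ∨ β = 1 ∨ β = -1) := by
    rcases hb with h | h | h
    · exact ⟨0, by simp [h], by simp⟩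
    · exact ⟨1, by simp [h], by simp⟩
    · exact ⟨-1, by simp [h], by simp⟩
  have hab : a * b = ((α * β : ℝ) : ℂ) := by rw [hα, hβ]; push_cast; ring
  have hone : (1 - (t : ℂ)) = 1 - ((1 : ℝ) : ℂ) * (t : ℂ) := by push_cast; ring
  have e1 : |α| ≤ 1 := by rcases hα' with h | h | h <;> simp [h]
  have e2 : |β| ≤ 1 := by rcases hβ' with h | h | h <;> simp [h]
  have e3 : |α * β| ≤ 1 := by rw [abs_mul]; exact mul_le_one₀ e1 (abs_nonneg _) e2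
  rw [hab, hα, hβ, hone, local_real 1 t h0 h1 (by simp), local_real α t h0 h1 e1,
    local_real β t h0 h1 e2, local_real (α * β) t h0 h1 e3]
  have p1 : 0 < 1 - 1 * t := by linarith
  have p2 : 0 < 1 - α * t := by have := abs_le.mp e1; nlinarith [this.1, this.2]
  have p3 : 0 < 1 - β * t := by have := abs_le.mp e2; nlinarith [this.1, this.2]
  have p4 : 0 < 1 - α * β * t := by have := abs_le.mp e3; nlinarith [this.1, this.2]
  have hlog : Real.log ((1 - 1 * t) * (1 - α * t) * (1 - β * t) * (1 - α * β * t)) ≤ 0 := by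
    apply Real.log_nonpos (by positivity)
    have ht2 : t * t ≤ t := by nlinarith
    rcases hα' with h | h | h <;> rcases hβ' with h' | h' | h' <;> subst h <;> subst h' <;>
      nlinarith [mul_pos h0 h0, mul_pos p1 p1, mul_nonneg (mul_pos h0 h0).le (sub_nonneg.mpr h1.le),
        mul_self_nonneg (1 - t * t), mul_pos (mul_pos h0 h0) (mul_pos p1 p1)]
  rw [Real.log_mul (by positivity) p4.ne', Real.log_mul (by positivity) p3.ne',
    Real.log_mul p1.ne' p2.ne'] at hlog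
  linarith

/-- The norm of a Dirichlet `L`-series as the exponential of a real series. -/
lemma norm_LSeries {q : ℕ} (χ : DirichletCharacter ℂ q) {s : ℂ} (hs : 1 < s.re) :
    ‖LSeries (fun n => χ n) s‖ =
      Real.exp (∑' p : Nat.Primes, (-Complex.log (1 - χ p * (p : ℂ) ^ (-s))).re) := by
  rw [← DirichletCharacter.LSeries_eulerProduct_exp_log χ hs, Complex.norm_exp,
    Complex.re_tsum (χ.summable_neg_log_one_sub_mul_prime_cpow hs)]

lemma summable_re {q : ℕ} (χ : DirichletCharacter ℂ q) {s : ℂ} (hs : 1 < s.re) :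
    Summable fun p : Nat.Primes => (-Complex.log (1 - χ p * (p : ℂ) ^ (-s))).re :=
  (Complex.hasSum_re (χ.summable_neg_log_one_sub_mul_prime_cpow hs).hasSum).summable

lemma zeta_summable {s : ℂ} (hs : 1 < s.re) :
    Summable fun p : Nat.Primes => -Complex.log (1 - (p : ℂ) ^ (-s)) := by
  have := (1 : DirichletCharacter ℂ 1).summable_neg_log_one_sub_mul_prime_cpow hs
  refine this.congr fun p => ?_
  rw [MulChar.one_apply (isUnit_of_subsingleton _), one_mul]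

lemma norm_zeta {s : ℂ} (hs : 1 < s.re) :
    ‖riemannZeta s‖ = Real.exp (∑' p : Nat.Primes, (-Complex.log (1 - (p : ℂ) ^ (-s))).re) := by
  rw [← riemannZeta_eulerProduct_exp_log hs, Complex.norm_exp,
    Complex.re_tsum (zeta_summable hs)]

lemma zeta_summable_re {s : ℂ} (hs : 1 < s.re) :
    Summable fun p : Nat.Primes => (-Complex.log (1 - (p : ℂ) ^ (-s))).re :=
  (Complex.hasSum_re (zeta_summable hs).hasSum).summable

/-- The values of the product character. -/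
lemma prod_apply {q₁ q₂ : ℕ} (χ₁ : DirichletCharacter ℂ q₁) (χ₂ : DirichletCharacter ℂ q₂)
    (n : ℕ) :
    (DirichletCharacter.changeLevel (dvd_mul_right q₁ q₂) χ₁ *
        DirichletCharacter.changeLevel (dvd_mul_left q₂ q₁) χ₂) (n : ZMod (q₁ * q₂)) =
      χ₁ n * χ₂ n := by
  by_cases hn : IsUnit (n : ZMod (q₁ * q₂))
  · have hn' : Nat.Coprime n (q₁ * q₂) := (ZMod.isUnit_iff_coprime _ _).mp hn
    have hi : IsCoprime (n : ℤ) ((q₁ * q₂ : ℕ) : ℤ) := Nat.isCoprime_iff_coprime.mpr hn'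
    rw [MulChar.mul_apply]
    have h1 := DirichletCharacter.changeLevel_eq_cast_of_dvd' χ₁ (dvd_mul_right q₁ q₂) hi
    have h2 := DirichletCharacter.changeLevel_eq_cast_of_dvd' χ₂ (dvd_mul_left q₂ q₁) hi
    push_cast at h1 h2
    rw [h1, h2]
  · rw [MulChar.map_nonunit _ hn]
    rw [ZMod.isUnit_iff_coprime, Nat.coprime_mul_iff_right, not_and_or] at hn
    rcases hn with h | h
    · rw [MulChar.map_nonunit χ₁ (by rwa [ZMod.isUnit_iff_coprime]), zero_mul]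
    · rw [MulChar.map_nonunit χ₂ (by rwa [ZMod.isUnit_iff_coprime]), mul_zero]

end AN5

open AN5

/-- AN5: positivity of `ζ(σ) L(σ,χ₁) L(σ,χ₂) L(σ,χ₁χ₂)`. -/
theorem four_product {q₁ q₂ : ℕ} (_h₁ : 2 ≤ q₁) (_h₂ : 2 ≤ q₂) (χ₁ : DirichletCharacter ℂ q₁)
    (χ₂ : DirichletCharacter ℂ q₂) (hχ₁ : χ₁ ^ 2 = 1) (hχ₂ : χ₂ ^ 2 = 1) (x : ℝ) (hx : 0 < x) :
    1 ≤ ‖riemannZeta (1 + (x : ℂ))‖ * ‖DD χ₁ 0 (1 + (x : ℂ))‖ * ‖DD χ₂ 0 (1 + (x : ℂ))‖ *
      ‖DD (DirichletCharacter.changeLevel (dvd_mul_right q₁ q₂) χ₁ *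
        DirichletCharacter.changeLevel (dvd_mul_left q₂ q₁) χ₂) 0 (1 + (x : ℂ))‖ := by
  have hs : 1 < (1 + (x : ℂ)).re := by simp [hx]
  rw [DD_zero, DD_zero, DD_zero, norm_LSeries χ₁ hs, norm_LSeries χ₂ hs, norm_LSeries _ hs,
    norm_zeta hs, ← Real.exp_add, ← Real.exp_add, ← Real.exp_add, Real.one_le_exp_iff,
    ← (zeta_summable_re hs).tsum_add (summable_re χ₁ hs),
    ← ((zeta_summable_re hs).add (summable_re χ₁ hs)).tsum_add (summable_re χ₂ hs),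
    ← (((zeta_summable_re hs).add (summable_re χ₁ hs)).add (summable_re χ₂ hs)).tsum_add
      (summable_re _ hs)]
  refine tsum_nonneg fun p => ?_
  have hp : (1 : ℝ) < (p : ℕ) := by exact_mod_cast p.prop.one_lt
  have ht : ((p : ℕ) : ℂ) ^ (-(1 + (x : ℂ))) = ((((p : ℕ) : ℝ) ^ (-(1 + x)) : ℝ) : ℂ) := by
    rw [Complex.ofReal_cpow (by positivity)]
    push_cast
    rfl
  rw [prod_apply χ₁ χ₂ p, ht]
  exact local_ineq _ _ _ (by positivity)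
    (Real.rpow_lt_one_of_one_lt_of_neg hp (by linarith)) (real_vals χ₁ hχ₁ _) (real_vals χ₂ hχ₂ _)

namespace AN5

/-- The product of two different real primitive characters is not trivial. -/
lemma prod_ne_one {q₁ q₂ : ℕ} (h₁ : 2 ≤ q₁) (h₂ : 2 ≤ q₂) (χ₁ : DirichletCharacter ℂ q₁)
    (χ₂ : DirichletCharacter ℂ q₂) (hp₁ : χ₁.IsPrimitive) (hp₂ : χ₂.IsPrimitive)
    (hχ₂ : χ₂ ^ 2 = 1) (hne : ∃ n : ℕ, χ₁ n ≠ χ₂ n) :
    DirichletCharacter.changeLevel (dvd_mul_right q₁ q₂) χ₁ *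
        DirichletCharacter.changeLevel (dvd_mul_left q₂ q₁) χ₂ ≠ 1 := by
  intro h
  have : NeZero q₁ := ⟨by omega⟩
  have : NeZero q₂ := ⟨by omega⟩
  have hinv : χ₂⁻¹ = χ₂ := by
    rw [inv_eq_iff_mul_eq_one, ← sq]
    exact hχ₂
  have h' : DirichletCharacter.changeLevel (dvd_mul_right q₁ q₂) χ₁ =
      DirichletCharacter.changeLevel (dvd_mul_left q₂ q₁) χ₂ := by
    rw [mul_eq_one_iff_eq_inv, ← map_inv, hinv] at h
    exact h
  have hq : q₁ = q₂ := by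
    have e1 := DirichletCharacter.conductor_changeLevel χ₁ (dvd_mul_right q₁ q₂)
    have e2 := DirichletCharacter.conductor_changeLevel χ₂ (dvd_mul_left q₂ q₁)
    rw [h'] at e1
    rw [DirichletCharacter.isPrimitive_def] at hp₁ hp₂
    rw [← hp₁, ← hp₂, ← e1, ← e2]
  subst hq
  obtain ⟨n, hn⟩ := hne
  exact hn (by rw [DirichletCharacter.changeLevel_injective (dvd_mul_right q₁ q₁) h'])

lemma zeta_bound : ∃ δ : ℝ, 0 < δ ∧ ∀ x : ℝ, 0 < x → x < δ →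
    ‖riemannZeta (1 + (x : ℂ))‖ ≤ 2 / x := by
  have h := riemannZeta_residue_one
  rw [Metric.tendsto_nhdsWithin_nhds] at h
  obtain ⟨δ, hδ, h⟩ := h 1 one_pos
  refine ⟨δ, hδ, fun x hx hxδ => ?_⟩
  have hx' : (x : ℂ) ≠ 0 := by exact_mod_cast hx.ne'
  have h1 := @h (1 + (x : ℂ)) (by simpa using hx') (by
    rw [dist_eq_norm, add_sub_cancel_left, Complex.norm_real, Real.norm_of_nonneg hx.le]
    exact hxδ)
  rw [dist_eq_norm, add_sub_cancel_left] at h1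
  have h2 : ‖(x : ℂ) * riemannZeta (1 + (x : ℂ))‖ ≤ 2 := by
    calc ‖(x : ℂ) * riemannZeta (1 + (x : ℂ))‖
        = ‖((x : ℂ) * riemannZeta (1 + (x : ℂ)) - 1) + 1‖ := by ring_nf
      _ ≤ ‖(x : ℂ) * riemannZeta (1 + (x : ℂ)) - 1‖ + ‖(1 : ℂ)‖ := norm_add_le _ _
      _ ≤ 2 := by rw [norm_one]; linarith
  rw [norm_mul, Complex.norm_real, Real.norm_of_nonneg hx.le] at h2
  rw [le_div_iff₀ hx]
  linarith

end AN5

/-- AN5': two different real primitive characters repel each other (from AN2). -/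
theorem real_repel_of
    (hB : ∃ C : ℝ, 0 < C ∧ ∀ q : ℕ, 2 ≤ q → ∀ χ : DirichletCharacter ℂ q, χ ≠ 1 →
      ∀ s : ℂ, 1 < s.re → s.re ≤ 2 → |s.im| ≤ 1 → ‖DD χ 0 s‖ ≤ C * (1 + Real.log q) ^ (0 + 1))
    (hL : ∃ C : ℝ, 0 < C ∧ ∀ q : ℕ, 2 ≤ q → ∀ χ : DirichletCharacter ℂ q, χ ≠ 1 →
      ∀ s t : ℂ, 1 < s.re → s.re ≤ 2 → |s.im| ≤ 1 → 1 < t.re → t.re ≤ 2 → |t.im| ≤ 1 →
      ‖DD χ 0 s - DD χ 0 t‖ ≤ C * (1 + Real.log q) ^ 2 * ‖s - t‖) :
    ∃ c : ℝ, 0 < c ∧ c ≤ 1 ∧ ∀ (q₁ q₂ Q : ℕ), 2 ≤ q₁ → 2 ≤ q₂ → q₁ ≤ Q → q₂ ≤ Q →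
    ∀ (χ₁ : DirichletCharacter ℂ q₁) (χ₂ : DirichletCharacter ℂ q₂), χ₁.IsPrimitive →
    χ₂.IsPrimitive → χ₁ ^ 2 = 1 → χ₂ ^ 2 = 1 → (∃ n : ℕ, χ₁ n ≠ χ₂ n) →
    ∀ x : ℝ, 0 < x → x ≤ c / (1 + Real.log Q) ^ 5 →
    ¬ (‖DD χ₁ 0 (1 + (x : ℂ))‖ ≤ c / (1 + Real.log Q) ^ 3 ∧
       ‖DD χ₂ 0 (1 + (x : ℂ))‖ ≤ c / (1 + Real.log Q) ^ 3) := by
  obtain ⟨CB, hCB, hB⟩ := hB
  obtain ⟨CL, hCL, hL⟩ := hL
  obtain ⟨δ, hδ, hζ⟩ := zeta_bound
  obtain ⟨c', hc'0, hc'1, hc'δ, hc'⟩ : ∃ c' : ℝ, 0 < c' ∧ c' ≤ 1 ∧ c' < δ ∧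
      16 * CB * CL ^ 2 * c' < 1 := by
    have hpos : 0 < 16 * CB * CL ^ 2 := by positivity
    refine ⟨min (min 1 (δ / 2)) (1 / (2 * (16 * CB * CL ^ 2))), by positivity, ?_, ?_, ?_⟩
    · exact (min_le_left _ _).trans (min_le_left _ _)
    · exact ((min_le_left _ _).trans (min_le_right _ _)).trans_lt (by linarith)
    · calc 16 * CB * CL ^ 2 * min (min 1 (δ / 2)) (1 / (2 * (16 * CB * CL ^ 2)))
          ≤ 16 * CB * CL ^ 2 * (1 / (2 * (16 * CB * CL ^ 2))) :=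
            mul_le_mul_of_nonneg_left (min_le_right _ _) hpos.le
        _ = 1 / 2 := by field_simp
        _ < 1 := by norm_num
  refine ⟨min c' (CL * c'), by positivity, (min_le_left _ _).trans hc'1, ?_⟩
  intro q₁ q₂ Q h₁ h₂ hQ₁ hQ₂ χ₁ χ₂ hp₁ hp₂ hr₁ hr₂ hne x hx hxc ⟨hs₁, hs₂⟩
  set c := min c' (CL * c') with hc
  have hQ2 : 2 ≤ Q := h₁.trans hQ₁
  have hlogQ : 0 ≤ Real.log Q := Real.log_nonneg (by exact_mod_cast (by omega : 1 ≤ Q))
  set l := 1 + Real.log Q with hl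
  have hl1 : 1 ≤ l := by linarith
  have hl0 : 0 < l := by linarith
  set x₁ := c' / l ^ 5 with hx₁
  have hx₁0 : 0 < x₁ := by positivity
  have hx₁c : x₁ ≤ c' := div_le_self hc'0.le (one_le_pow₀ hl1)
  have hxx₁ : x ≤ x₁ := hxc.trans (div_le_div_of_nonneg_right (min_le_left _ _) (by positivity))
  have hne₁ : χ₁ ≠ 1 := by
    intro h
    have : NeZero q₁ := ⟨by omega⟩
    rw [h, DirichletCharacter.isPrimitive_def, DirichletCharacter.conductor_one] at hp₁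
    omega
  have hne₂ : χ₂ ≠ 1 := by
    intro h
    have : NeZero q₂ := ⟨by omega⟩
    rw [h, DirichletCharacter.isPrimitive_def, DirichletCharacter.conductor_one] at hp₂
    omega
  have hmain := four_product h₁ h₂ χ₁ χ₂ hr₁ hr₂ x₁ hx₁0
  have hre : ∀ y : ℝ, (1 + (y : ℂ)).re = 1 + y := by intro y; simp
  have him : ∀ y : ℝ, |(1 + (y : ℂ)).im| ≤ 1 := by intro y; simp
  -- Lipschitz bound
  have hsmall : ∀ (q : ℕ), 2 ≤ q → q ≤ Q → ∀ χ : DirichletCharacter ℂ q, χ ≠ 1 →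
      ‖DD χ 0 (1 + (x : ℂ))‖ ≤ c / l ^ 3 → ‖DD χ 0 (1 + (x₁ : ℂ))‖ ≤ 2 * CL * c' / l ^ 3 := by
    intro q hq hqQ χ hχ hsm
    have h := hL q hq χ hχ (1 + (x₁ : ℂ)) (1 + (x : ℂ)) (by rw [hre]; linarith)
      (by rw [hre]; linarith) (him _) (by rw [hre]; linarith) (by rw [hre]; linarith) (him _)
    have hlogq : Real.log q ≤ Real.log Q :=
      Real.log_le_log (by exact_mod_cast (by omega : 0 < q)) (by exact_mod_cast hqQ)
    have hlogq0 : 0 ≤ Real.log q := Real.log_nonneg (by exact_mod_cast (by omega : 1 ≤ q))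
    have hd : ‖(1 + (x₁ : ℂ)) - (1 + (x : ℂ))‖ ≤ x₁ := by
      have : (1 + (x₁ : ℂ)) - (1 + (x : ℂ)) = ((x₁ - x : ℝ) : ℂ) := by push_cast; ring
      rw [this, Complex.norm_real, Real.norm_of_nonneg (by linarith)]
      linarith
    have h' : ‖DD χ 0 (1 + (x₁ : ℂ)) - DD χ 0 (1 + (x : ℂ))‖ ≤ CL * c' / l ^ 3 := by
      calc _ ≤ CL * (1 + Real.log q) ^ 2 * ‖(1 + (x₁ : ℂ)) - (1 + (x : ℂ))‖ := h
        _ ≤ CL * l ^ 2 * x₁ := by
          have hql : 1 + Real.log q ≤ l := by rw [hl]; linarith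
          gcongr
        _ = CL * c' / l ^ 3 := by rw [hx₁]; field_simp
    have hc2 : c / l ^ 3 ≤ CL * c' / l ^ 3 :=
      div_le_div_of_nonneg_right (min_le_right _ _) (by positivity)
    calc ‖DD χ 0 (1 + (x₁ : ℂ))‖
        = ‖(DD χ 0 (1 + (x₁ : ℂ)) - DD χ 0 (1 + (x : ℂ))) + DD χ 0 (1 + (x : ℂ))‖ := by ring_nf
      _ ≤ ‖DD χ 0 (1 + (x₁ : ℂ)) - DD χ 0 (1 + (x : ℂ))‖ + ‖DD χ 0 (1 + (x : ℂ))‖ :=
          norm_add_le _ _
      _ ≤ CL * c' / l ^ 3 + CL * c' / l ^ 3 := add_le_add h' (hsm.trans hc2)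
      _ = 2 * CL * c' / l ^ 3 := by ring
  have hb₁ := hsmall q₁ h₁ hQ₁ χ₁ hne₁ hs₁
  have hb₂ := hsmall q₂ h₂ hQ₂ χ₂ hne₂ hs₂
  have hq12 : 2 ≤ q₁ * q₂ := by nlinarith
  have hb₃ : ‖DD (DirichletCharacter.changeLevel (dvd_mul_right q₁ q₂) χ₁ *
        DirichletCharacter.changeLevel (dvd_mul_left q₂ q₁) χ₂) 0 (1 + (x₁ : ℂ))‖ ≤
      2 * CB * l := by
    refine (hB (q₁ * q₂) hq12 _ (prod_ne_one h₁ h₂ χ₁ χ₂ hp₁ hp₂ hr₂ hne) (1 + (x₁ : ℂ))
      (by rw [hre]; linarith) (by rw [hre]; linarith) (him _)).trans ?_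
    have e1 : Real.log ((q₁ * q₂ : ℕ) : ℝ) ≤ 2 * Real.log Q := by
      push_cast
      rw [Real.log_mul (by positivity) (by positivity)]
      have := Real.log_le_log (by exact_mod_cast (by omega : 0 < q₁) : (0 : ℝ) < q₁)
        (by exact_mod_cast hQ₁ : (q₁ : ℝ) ≤ Q)
      have := Real.log_le_log (by exact_mod_cast (by omega : 0 < q₂) : (0 : ℝ) < q₂)
        (by exact_mod_cast hQ₂ : (q₂ : ℝ) ≤ Q)
      linarith
    calc CB * (1 + Real.log ((q₁ * q₂ : ℕ) : ℝ)) ^ (0 + 1)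
        = CB * (1 + Real.log ((q₁ * q₂ : ℕ) : ℝ)) := by ring
      _ ≤ CB * (2 * l) := by
          apply mul_le_mul_of_nonneg_left _ hCB.le
          rw [hl]; linarith
      _ = 2 * CB * l := by ring
  have hbz := hζ x₁ hx₁0 (by linarith)
  have hfin : ‖riemannZeta (1 + (x₁ : ℂ))‖ * ‖DD χ₁ 0 (1 + (x₁ : ℂ))‖ *
      ‖DD χ₂ 0 (1 + (x₁ : ℂ))‖ *
      ‖DD (DirichletCharacter.changeLevel (dvd_mul_right q₁ q₂) χ₁ *
        DirichletCharacter.changeLevel (dvd_mul_left q₂ q₁) χ₂) 0 (1 + (x₁ : ℂ))‖ ≤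
      (2 / x₁) * (2 * CL * c' / l ^ 3) * (2 * CL * c' / l ^ 3) * (2 * CB * l) := by
    gcongr
  have hval : (2 / x₁) * (2 * CL * c' / l ^ 3) * (2 * CL * c' / l ^ 3) * (2 * CB * l) =
      16 * CB * CL ^ 2 * c' := by
    rw [hx₁]; field_simp; ring
  linarith [hmain.trans (hfin.trans_eq hval)]

end Pool.Agent.helper39.MT
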