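import Pool.Agent.helper99.MT.AN9L
import Pool.Agent.helper85.MT.AN1
import Pool.Agent.helper85.MT.AN8b
import Pool.Agent.helper85.MT.AN9ab
import Pool.Agent.helper17.MT.TR10a

/-!
# AN9: log-averaged Bombieri-Vinogradov
-/

namespace Pool.Agent.helper39.MT

open Finset Real ArithmeticFunction

namespace AN9

open Classical in
/-- The sum over primitive characters. -/
noncomputable def T (A : ℕ) (L : ℝ) (r : ℕ) : ℝ :=
  ∑ χ ∈ (univ : Finset (DirichletCharacter ℂ r)).filter (fun χ => χ.IsPrimitive),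
    ‖TT χ L (Real.log A)‖

lemma T_nonneg (A : ℕ) (L : ℝ) (r : ℕ) : 0 ≤ T A L r := sum_nonneg fun _ _ => norm_nonneg _

lemma T_small {A : ℕ} {L : ℝ} {r : ℕ} (hr : 2 ≤ r) {δ : ℝ} (hδ : 0 ≤ δ)
    (h : ∀ χ : DirichletCharacter ℂ r, χ.IsPrimitive → ‖TT χ L (Real.log A)‖ ≤ δ) :
    T A L r ≤ Nat.totient r * δ := by
  classical
  have : NeZero r := ⟨by omega⟩
  unfold T
  calc _ ≤ ∑ χ ∈ (univ : Finset (DirichletCharacter ℂ r)).filter (fun χ => χ.IsPrimitive), δ :=
        sum_le_sum fun χ hχ => h χ (mem_filter.mp hχ).2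
    _ = (#{χ : DirichletCharacter ℂ r | χ.IsPrimitive} : ℝ) * δ := by
        rw [sum_const, nsmul_eq_mul]
    _ ≤ Nat.totient r * δ := by
        refine mul_le_mul_of_nonneg_right ?_ hδ
        have h1 : #{χ : DirichletCharacter ℂ r | χ.IsPrimitive} ≤ Nat.totient r := by
          refine (card_filter_le _ _).trans ?_
          rw [card_univ, ← Nat.card_eq_fintype_card,
            DirichletCharacter.card_eq_totient_of_hasEnoughRootsOfUnity ℂ r]
        exact_mod_cast h1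

/-- The bound of AN9 for the modulus `A D`. -/
noncomputable def EB (A : ℕ) (L Ca Cb : ℝ) (D : ℕ) : ℝ :=
  (1 / (Nat.totient (A * D) : ℝ)) * (∑ r ∈ (A * D).divisors with 2 ≤ r, T A L r) +
    (Ca + Cb) * Real.exp (-L / 5)

lemma EB_nonneg (A : ℕ) (L : ℝ) {Ca Cb : ℝ} (ha : 0 < Ca) (hb : 0 < Cb) (D : ℕ) :
    0 ≤ EB A L Ca Cb D := by
  unfold EB
  have : 0 ≤ ∑ r ∈ (A * D).divisors with 2 ≤ r, T A L r := sum_nonneg fun r _ => T_nonneg A L r
  positivity

/-- The sum over the moduli. -/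
lemma swap_le (A H Q : ℕ) (hA : 0 < A) (hH : 1 ≤ H) (L : ℝ) :
    ∑ D ∈ (Icc 1 Q).filter (fun D => Squarefree D ∧ Nat.Coprime D A),
      (H : ℝ) ^ D.primeFactors.card * ((1 / (Nat.totient (A * D) : ℝ)) *
        (∑ r ∈ (A * D).divisors with 2 ≤ r, T A L r)) ≤
    A * (∑ D ∈ Icc 1 Q with Squarefree D, gg H D) *
      ∑ r ∈ Icc 2 (A * Q), gg H r * T A L r := by
  have h1 : ∀ D ∈ (Icc 1 Q).filter (fun D => Squarefree D ∧ Nat.Coprime D A),
      (H : ℝ) ^ D.primeFactors.card * ((1 / (Nat.totient (A * D) : ℝ)) *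
        (∑ r ∈ (A * D).divisors with 2 ≤ r, T A L r)) =
      ∑ r ∈ Icc 2 (A * Q), (if r ∣ A * D then
        (H : ℝ) ^ D.primeFactors.card / (Nat.totient (A * D) : ℝ) else 0) * T A L r := by
    intro D hD
    have hD' := mem_Icc.mp (mem_filter.mp hD).1
    have e1 : (A * D).divisors.filter (fun r => 2 ≤ r) =
        (Icc 2 (A * Q)).filter (fun r => r ∣ A * D) := by
      ext r
      simp only [mem_filter, Nat.mem_divisors, mem_Icc]
      constructor
      · rintro ⟨⟨h1, h2⟩, h3⟩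
        exact ⟨⟨h3, (Nat.le_of_dvd (Nat.pos_of_ne_zero h2) h1).trans
          (Nat.mul_le_mul_left _ hD'.2)⟩, h1⟩
      · rintro ⟨⟨h1, h2⟩, h3⟩
        exact ⟨⟨h3, Nat.mul_ne_zero hA.ne' (by omega)⟩, h1⟩
    rw [e1, sum_filter, mul_sum, mul_sum]
    refine sum_congr rfl fun r _ => ?_
    split_ifs <;> ring
  rw [sum_congr rfl h1, sum_comm]
  calc ∑ r ∈ Icc 2 (A * Q), ∑ D ∈ (Icc 1 Q).filter (fun D => Squarefree D ∧ Nat.Coprime D A),
        (if r ∣ A * D then
          (H : ℝ) ^ D.primeFactors.card / (Nat.totient (A * D) : ℝ) else 0) * T A L r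
      ≤ ∑ r ∈ Icc 2 (A * Q), (A * gg H r * ∑ D ∈ Icc 1 Q with Squarefree D, gg H D) * T A L r := by
        refine sum_le_sum fun r hr => ?_
        rw [← sum_mul]
        exact mul_le_mul_of_nonneg_right (inner_le A H r Q hA hH (by
          have := (mem_Icc.mp hr).1; omega)) (T_nonneg A L r)
    _ = _ := by
        rw [mul_sum]
        refine sum_congr rfl fun r _ => by ring

/-- Small conductors. -/
lemma small_part {A H : ℕ} {L C4 : ℝ} (hC4 : 0 < C4) {C₀ K' : ℕ} (hL : 1 ≤ L)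
    (hω : ∀ D : ℕ, 0 < D → (H : ℝ) ^ D.primeFactors.card ≤ C4 * (D : ℝ) ^ (1 / 4 : ℝ))
    (h8 : ∀ q : ℕ, 2 ≤ q → (q : ℝ) ≤ L ^ C₀ → ∀ χ : DirichletCharacter ℂ q, χ.IsPrimitive →
      ‖TT χ L (Real.log A)‖ ≤ 1 / L ^ K') (Q' : ℕ) :
    ∑ r ∈ (Icc 2 Q').filter (fun r : ℕ => (r : ℝ) ≤ L ^ C₀), gg H r * T A L r ≤
      C4 * L ^ (2 * C₀) / L ^ K' := by
  have hL0 : 0 < L := by linarith
  have h1 : ∀ r ∈ (Icc 2 Q').filter (fun r : ℕ => (r : ℝ) ≤ L ^ C₀),
      gg H r * T A L r ≤ C4 * L ^ C₀ * (1 / L ^ K') := by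
    intro r hr
    have hr1 := (mem_filter.mp hr).2
    have hr2 := (mem_Icc.mp (mem_filter.mp hr).1).1
    have hr0 : 0 < r := by omega
    have hφ : (0 : ℝ) < Nat.totient r := by exact_mod_cast Nat.totient_pos.mpr hr0
    have hr1' : (1 : ℝ) ≤ r := by exact_mod_cast hr0
    calc gg H r * T A L r ≤ gg H r * (Nat.totient r * (1 / L ^ K')) :=
          mul_le_mul_of_nonneg_left (T_small hr2 (by positivity) (h8 r hr2 hr1)) (gg_nonneg _ _)
      _ = (H : ℝ) ^ r.primeFactors.card * (1 / L ^ K') := by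
          unfold gg; field_simp
      _ ≤ (C4 * (r : ℝ) ^ (1 / 4 : ℝ)) * (1 / L ^ K') :=
          mul_le_mul_of_nonneg_right (hω r hr0) (by positivity)
      _ ≤ (C4 * L ^ C₀) * (1 / L ^ K') := by
          have : (r : ℝ) ^ (1 / 4 : ℝ) ≤ L ^ C₀ := by
            calc (r : ℝ) ^ (1 / 4 : ℝ) ≤ (r : ℝ) ^ (1 : ℝ) :=
                  Real.rpow_le_rpow_of_exponent_le hr1' (by norm_num)
              _ = r := Real.rpow_one _
              _ ≤ L ^ C₀ := hr1
          gcongr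
  have hcard : (#((Icc 2 Q').filter (fun r : ℕ => (r : ℝ) ≤ L ^ C₀)) : ℝ) ≤ L ^ C₀ := by
    have hsub : (Icc 2 Q').filter (fun r : ℕ => (r : ℝ) ≤ L ^ C₀) ⊆ Icc 1 ⌊L ^ C₀⌋₊ := by
      intro r hr
      have hr1 := (mem_filter.mp hr).2
      have hr2 := (mem_Icc.mp (mem_filter.mp hr).1).1
      exact mem_Icc.mpr ⟨by omega, Nat.le_floor hr1⟩
    have := card_le_card hsub
    rw [Nat.card_Icc, Nat.add_sub_cancel] at this
    exact (by exact_mod_cast this : (_ : ℝ) ≤ (⌊L ^ C₀⌋₊ : ℝ)).trans (Nat.floor_le (by positivity))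
  calc _ ≤ ∑ r ∈ (Icc 2 Q').filter (fun r : ℕ => (r : ℝ) ≤ L ^ C₀),
        C4 * L ^ C₀ * (1 / L ^ K') := sum_le_sum h1
    _ = (#((Icc 2 Q').filter (fun r : ℕ => (r : ℝ) ≤ L ^ C₀)) : ℝ) *
        (C4 * L ^ C₀ * (1 / L ^ K')) := by rw [sum_const, nsmul_eq_mul]
    _ ≤ L ^ C₀ * (C4 * L ^ C₀ * (1 / L ^ K')) := by gcongr
    _ = C4 * L ^ (2 * C₀) / L ^ K' := by rw [two_mul, pow_add]; ring

/-- Large conductors. -/
lemma large_part {A H : ℕ} {L C4 C1 : ℝ} (hC4 : 0 < C4) {M : ℕ} (hL : 1 ≤ L)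
    (hω : ∀ D : ℕ, 0 < D → (H : ℝ) ^ D.primeFactors.card ≤ C4 * (D : ℝ) ^ (1 / 4 : ℝ))
    {Q' : ℕ} (h1 : ∑ q ∈ Icc 2 Q', ((q : ℝ) / Nat.totient q) * T A L q ≤ C1 * L ^ 5) :
    ∑ r ∈ (Icc 2 Q').filter (fun r : ℕ => ¬ (r : ℝ) ≤ L ^ (2 * M)), gg H r * T A L r ≤
      C4 / L ^ M * (C1 * L ^ 5) := by
  have hL0 : 0 < L := by linarith
  calc _ ≤ ∑ r ∈ (Icc 2 Q').filter (fun r : ℕ => ¬ (r : ℝ) ≤ L ^ (2 * M)),
        C4 / L ^ M * (((r : ℝ) / Nat.totient r) * T A L r) := by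
        refine sum_le_sum fun r hr => ?_
        have hr1 := not_le.mp (mem_filter.mp hr).2
        have hr2 := (mem_Icc.mp (mem_filter.mp hr).1).1
        have hr0 : 0 < r := by omega
        have hφ : (0 : ℝ) < Nat.totient r := by exact_mod_cast Nat.totient_pos.mpr hr0
        have hr1' : (1 : ℝ) ≤ r := by exact_mod_cast hr0
        have hrpos : (0 : ℝ) < r := by linarith
        rw [← mul_assoc]
        refine mul_le_mul_of_nonneg_right ?_ (T_nonneg A L r)
        unfold gg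
        rw [← mul_div_assoc]
        refine div_le_div_of_nonneg_right ?_ hφ.le
        refine (hω r hr0).trans ?_
        rw [div_mul_eq_mul_div, mul_div_assoc]
        refine mul_le_mul_of_nonneg_left ?_ hC4.le
        rw [le_div_iff₀ (by positivity)]
        have e1 : L ^ M ≤ (r : ℝ) ^ (1 / 2 : ℝ) := by
          have : L ^ M = (L ^ (2 * M)) ^ (1 / 2 : ℝ) := by
            rw [mul_comm 2 M, pow_mul, ← Real.sqrt_eq_rpow, Real.sqrt_sq (by positivity)]
          rw [this]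
          exact Real.rpow_le_rpow (by positivity) hr1.le (by norm_num)
        calc (r : ℝ) ^ (1 / 4 : ℝ) * L ^ M ≤ (r : ℝ) ^ (1 / 4 : ℝ) * (r : ℝ) ^ (1 / 2 : ℝ) := by
              gcongr
          _ = (r : ℝ) ^ (1 / 4 + 1 / 2 : ℝ) := (Real.rpow_add hrpos _ _).symm
          _ ≤ (r : ℝ) ^ (1 : ℝ) := Real.rpow_le_rpow_of_exponent_le hr1' (by norm_num)
          _ = r := Real.rpow_one _
    _ ≤ ∑ r ∈ Icc 2 Q', C4 / L ^ M * (((r : ℝ) / Nat.totient r) * T A L r) := by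
        refine sum_le_sum_of_subset_of_nonneg (filter_subset _ _) fun r _ _ => ?_
        have := T_nonneg A L r
        positivity
    _ = C4 / L ^ M * ∑ q ∈ Icc 2 Q', ((q : ℝ) / Nat.totient q) * T A L q := by rw [mul_sum]
    _ ≤ C4 / L ^ M * (C1 * L ^ 5) := mul_le_mul_of_nonneg_left h1 (by positivity)

/-- The contribution of the exponentially small errors. -/
lemma tiny_part {A H : ℕ} {L C4 c : ℝ} (hC4 : 0 < C4) (hc : 0 ≤ c)
    (hω : ∀ D : ℕ, 0 < D → (H : ℝ) ^ D.primeFactors.card ≤ C4 * (D : ℝ) ^ (1 / 4 : ℝ))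
    {Q : ℕ} (hQ : (Q : ℝ) ≤ Real.exp (L / 60)) :
    ∑ D ∈ (Icc 1 Q).filter (fun D => Squarefree D ∧ Nat.Coprime D A),
      (H : ℝ) ^ D.primeFactors.card * (c * Real.exp (-L / 5)) ≤
    C4 * c * Real.exp (-L / 6) := by
  calc _ ≤ ∑ D ∈ (Icc 1 Q).filter (fun D => Squarefree D ∧ Nat.Coprime D A),
        (C4 * Real.exp (L / 60)) * (c * Real.exp (-L / 5)) := by
        refine sum_le_sum fun D hD => ?_
        have hD' := mem_Icc.mp (mem_filter.mp hD).1
        have hD1 : (1 : ℝ) ≤ D := by exact_mod_cast hD'.1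
        refine mul_le_mul_of_nonneg_right ?_ (by positivity)
        refine (hω D (by omega)).trans (mul_le_mul_of_nonneg_left ?_ hC4.le)
        calc (D : ℝ) ^ (1 / 4 : ℝ) ≤ (D : ℝ) ^ (1 : ℝ) :=
              Real.rpow_le_rpow_of_exponent_le hD1 (by norm_num)
          _ = D := Real.rpow_one _
          _ ≤ Q := by exact_mod_cast hD'.2
          _ ≤ Real.exp (L / 60) := hQ
    _ = (#((Icc 1 Q).filter (fun D => Squarefree D ∧ Nat.Coprime D A)) : ℝ) *
        ((C4 * Real.exp (L / 60)) * (c * Real.exp (-L / 5))) := by rw [sum_const, nsmul_eq_mul]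
    _ ≤ Real.exp (L / 60) * ((C4 * Real.exp (L / 60)) * (c * Real.exp (-L / 5))) := by
        refine mul_le_mul_of_nonneg_right ?_ (by positivity)
        have := card_filter_le (Icc 1 Q) (fun D => Squarefree D ∧ Nat.Coprime D A)
        rw [Nat.card_Icc, Nat.add_sub_cancel] at this
        exact (by exact_mod_cast this : (_ : ℝ) ≤ (Q : ℝ)).trans hQ
    _ = C4 * c * (Real.exp (L / 60) * Real.exp (L / 60) * Real.exp (-L / 5)) := by ring
    _ = C4 * c * Real.exp (-L / 6) := by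
        rw [← Real.exp_add, ← Real.exp_add]; congr 2; ring

/-- The final choice of the scale. -/
lemma final_large (c₁ c₂ : ℝ) (K : ℕ) : ∃ L₁ : ℝ, ∀ L : ℝ, L₁ ≤ L →
    c₁ / L ^ (K + 2) + c₂ * Real.exp (-L / 6) ≤ 1 / L ^ K := by
  have h1 : Filter.Tendsto (fun L : ℝ => c₁ / L ^ 2 + c₂ * (L ^ K * Real.exp (-L / 6)))
      Filter.atTop (nhds 0) := by
    have e1 : Filter.Tendsto (fun L : ℝ => c₁ / L ^ 2) Filter.atTop (nhds 0) :=
      (Filter.tendsto_pow_atTop two_ne_zero).const_div_atTop c₁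
    have e2 : Filter.Tendsto (fun L : ℝ => L ^ K * Real.exp (-L / 6)) Filter.atTop (nhds 0) := by
      have h := (Real.tendsto_pow_mul_exp_neg_atTop_nhds_zero K).comp
        (Filter.tendsto_id.atTop_div_const (by norm_num : (0 : ℝ) < 6))
      have h' := h.const_mul ((6 : ℝ) ^ K)
      rw [mul_zero] at h'
      refine h'.congr fun L => ?_
      simp only [Function.comp, id, div_pow]
      rw [neg_div]
      field_simp
    have := e1.add (e2.const_mul c₂)
    rwa [mul_zero, add_zero] at this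
  have h2 := (h1.eventually (gt_mem_nhds one_pos)).and (Filter.eventually_gt_atTop (0 : ℝ))
  obtain ⟨L₁, hL₁⟩ := Filter.eventually_atTop.mp h2
  refine ⟨L₁, fun L hL => ?_⟩
  obtain ⟨h3, h4⟩ := hL₁ L hL
  rw [le_div_iff₀ (by positivity)]
  refine le_trans (le_of_eq ?_) h3.le
  rw [pow_add]
  field_simp

end AN9

open AN9

/-- AN9: log-averaged Bombieri-Vinogradov. -/
theorem bv_log (K h : ℕ) : ∃ C₀ : ℕ, ∀ A : ℕ, 0 < A → ∃ L₁ : ℝ, ∀ L : ℝ, L₁ ≤ L → Good C₀ L →
    ∃ E : ℕ → ℝ, (∀ D, 0 ≤ E D) ∧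
      (∀ D b : ℕ, D ≠ 0 → (D : ℝ) ≤ Real.exp (L / 60) → Squarefree D → Nat.Coprime D A →
        Nat.Coprime b (A * D) → EE A L D b ≤ E D) ∧
      ∀ Q : ℕ, (Q : ℝ) ≤ Real.exp (L / 60) →
        ∑ D ∈ Icc 1 Q with Squarefree D ∧ Nat.Coprime D A, (h : ℝ) ^ D.primeFactors.card * E D
          ≤ 1 / L ^ K := by
  classical
  set H := max h 1 with hH
  have hH1 : 1 ≤ H := le_max_right _ _
  set M := K + H + 7 with hM
  set C₀ := 2 * M with hC₀
  set K' := 2 * C₀ + K + H + 2 with hK'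
  obtain ⟨C4, hC4, hω⟩ := pow_omega_le H
  obtain ⟨CS, hCS, hS⟩ := sum_gg_le H
  refine ⟨C₀, fun A hA => ?_⟩
  obtain ⟨C1, L1, hC1, h1⟩ := large_conductors A hA
  obtain ⟨L8, h8⟩ := small_T C₀ K' A hA
  obtain ⟨Ca, La, hCa, ha⟩ := EE_le_chars A hA
  obtain ⟨Cb, Lb, hCb, hb⟩ := chars_le_prim A hA
  obtain ⟨Lf, hf⟩ := final_large (A * CS * C4 * (1 + C1)) (C4 * (Ca + Cb)) K
  refine ⟨max (max (max L1 L8) (max La Lb)) (max Lf (max 1 (300 * Real.log A))),
    fun L hL hgood => ?_⟩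
  have hL1 : L1 ≤ L := ((le_max_left _ _).trans ((le_max_left _ _).trans (le_max_left _ _))).trans hL
  have hL8 : L8 ≤ L := ((le_max_right _ _).trans ((le_max_left _ _).trans (le_max_left _ _))).trans hL
  have hLa : La ≤ L := ((le_max_left _ _).trans ((le_max_right _ _).trans (le_max_left _ _))).trans hL
  have hLb : Lb ≤ L := ((le_max_right _ _).trans ((le_max_right _ _).trans (le_max_left _ _))).trans hL
  have hLf : Lf ≤ L := ((le_max_left _ _).trans (le_max_right _ _)).trans hL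
  have hLone : 1 ≤ L :=
    ((le_max_left _ _).trans ((le_max_right _ _).trans (le_max_right _ _))).trans hL
  have hLA : 300 * Real.log A ≤ L :=
    ((le_max_right _ _).trans ((le_max_right _ _).trans (le_max_right _ _))).trans hL
  have hL0 : 0 < L := by linarith
  -- `A e^(L/60) ≤ e^(L/50)`
  have hAe : (A : ℝ) * Real.exp (L / 60) ≤ Real.exp (L / 50) := by
    have hA' : (0 : ℝ) < A := by exact_mod_cast hA
    rw [← Real.exp_log hA', ← Real.exp_add]
    apply Real.exp_le_exp.mpr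
    linarith
  refine ⟨EB A L Ca Cb, EB_nonneg A L hCa hCb, ?_, ?_⟩
  · intro D b hD0 hDL _ _ hcop
    have hD : 0 < D := Nat.pos_of_ne_zero hD0
    have e1 := ha L hLa D b hD hDL hcop
    have e2 := hb L hLb (A * D) (Nat.mul_pos hA hD) (by
      push_cast
      exact (mul_le_mul_of_nonneg_left hDL (by positivity)).trans hAe)
    have hφ : (1 : ℝ) ≤ Nat.totient (A * D) := by
      exact_mod_cast Nat.totient_pos.mpr (Nat.mul_pos hA hD)
    refine e1.trans ?_
    unfold EB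
    have e3 : (1 / (Nat.totient (A * D) : ℝ)) *
        ∑ χ ∈ (univ : Finset (DirichletCharacter ℂ (A * D))).filter (fun χ => χ ≠ 1),
          ‖TT χ L (Real.log A)‖ ≤
        (1 / (Nat.totient (A * D) : ℝ)) * (∑ r ∈ (A * D).divisors with 2 ≤ r, T A L r +
          Cb * Real.exp (-L / 5)) := mul_le_mul_of_nonneg_left e2 (by positivity)
    have e4 : (1 / (Nat.totient (A * D) : ℝ)) * (Cb * Real.exp (-L / 5)) ≤
        Cb * Real.exp (-L / 5) := mul_le_of_le_one_left (by positivity)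
          (by rw [div_le_one (by positivity)]; exact hφ)
    rw [mul_add] at e3
    linarith
  · intro Q hQ
    have hω' : ∀ D ∈ (Icc 1 Q).filter (fun D => Squarefree D ∧ Nat.Coprime D A),
        (h : ℝ) ^ D.primeFactors.card * EB A L Ca Cb D ≤
        (H : ℝ) ^ D.primeFactors.card * ((1 / (Nat.totient (A * D) : ℝ)) *
          (∑ r ∈ (A * D).divisors with 2 ≤ r, T A L r)) +
        (H : ℝ) ^ D.primeFactors.card * ((Ca + Cb) * Real.exp (-L / 5)) := by
      intro D _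
      rw [← mul_add]
      refine mul_le_mul ?_ le_rfl (EB_nonneg A L hCa hCb D) (by positivity)
      exact pow_le_pow_left₀ (by positivity) (by exact_mod_cast le_max_left h 1) _
    have hAQ : ((A * Q : ℕ) : ℝ) ≤ Real.exp (L / 50) := by
      push_cast
      exact (mul_le_mul_of_nonneg_left hQ (by positivity)).trans hAe
    have hlarge := h1 L hL1 (A * Q) hAQ
    have e1 := small_part (A := A) (H := H) (C₀ := C₀) (K' := K') hC4 hLone hω
      (h8 L hL8 hgood) (A * Q)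
    have e2 := large_part (A := A) (H := H) (M := M) hC4 hLone hω hlarge
    have e3 := tiny_part (A := A) (H := H) (c := Ca + Cb) hC4 (by positivity) hω hQ
    have e4 : ∑ r ∈ Icc 2 (A * Q), gg H r * T A L r ≤
        C4 * L ^ (2 * C₀) / L ^ K' + C4 / L ^ M * (C1 * L ^ 5) := by
      rw [← sum_filter_add_sum_filter_not (Icc 2 (A * Q)) (fun r : ℕ => (r : ℝ) ≤ L ^ C₀)]
      exact add_le_add e1 e2
    have e5 : ∑ D ∈ Icc 1 Q with Squarefree D, gg H D ≤ CS * L ^ H :=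
      hS L hLone Q (hQ.trans (Real.exp_le_exp.mpr (by linarith)))
    have e6 : (0 : ℝ) ≤ ∑ r ∈ Icc 2 (A * Q), gg H r * T A L r :=
      sum_nonneg fun r _ => mul_nonneg (gg_nonneg _ _) (T_nonneg _ _ _)
    calc _ ≤ ∑ D ∈ (Icc 1 Q).filter (fun D => Squarefree D ∧ Nat.Coprime D A),
          ((H : ℝ) ^ D.primeFactors.card * ((1 / (Nat.totient (A * D) : ℝ)) *
            (∑ r ∈ (A * D).divisors with 2 ≤ r, T A L r)) +
          (H : ℝ) ^ D.primeFactors.card * ((Ca + Cb) * Real.exp (-L / 5))) := sum_le_sum hω'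
      _ ≤ A * (∑ D ∈ Icc 1 Q with Squarefree D, gg H D) *
          (∑ r ∈ Icc 2 (A * Q), gg H r * T A L r) + C4 * (Ca + Cb) * Real.exp (-L / 6) := by
          rw [sum_add_distrib]
          exact add_le_add (swap_le A H Q hA hH1 L) e3
      _ ≤ A * (CS * L ^ H) * (C4 * L ^ (2 * C₀) / L ^ K' + C4 / L ^ M * (C1 * L ^ 5)) +
          C4 * (Ca + Cb) * Real.exp (-L / 6) := by
          have : 0 ≤ CS * L ^ H := by positivity
          gcongr
      _ = A * CS * C4 * (1 + C1) / L ^ (K + 2) + C4 * (Ca + Cb) * Real.exp (-L / 6) := by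
          have k1 : L ^ K' = L ^ (2 * C₀) * L ^ H * L ^ (K + 2) := by
            rw [← pow_add, ← pow_add]; congr 1; omega
          have k2 : L ^ M = L ^ 5 * L ^ H * L ^ (K + 2) := by
            rw [← pow_add, ← pow_add]; congr 1; omega
          rw [k1, k2]
          field_simp
      _ ≤ 1 / L ^ K := hf L hLf

end Pool.Agent.helper39.MT
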